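import Pool.Agent.R819.SC

/-!
# A non-metrizable compact set of scatteredly continuous functions homeomorphic to a convex set

Let `C` be the compact convex set of all nonnegative functions `f` on `Γ = ω^ω` with `∑ f ≤ 1`. It is
not metrizable, as it contains an uncountable discrete subspace. For `f ∈ C` and `y ∈ ω^ω` let
`Φ f y = max (f (tail y) - 1/(y 0 + 1)) 0`. For each `n` the function `Φ f` has only finitely many
nonzero values on the clopen set of all `y` with `y 0 = n`, so `Φ f` is scatteredly continuous, and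
`Φ` is continuous and injective. So `C` is homeomorphic to the compact set `Φ (C)` of scatteredly
continuous functions on `ω^ω`.
-/

set_option autoImplicit false

open Set Topology Filter TopologicalSpace Cardinal

namespace Pool.Agent.Results.MP_69956f_gt.NonMetrizable

open Pool.Agent.R819.SC

/-- the Baire space -/
abbrev Γ : Type := ℕ → ℕ

/-- the tail of a sequence -/
def tl (y : Γ) : Γ := fun n => y (n + 1)

/-- the map `Φ` -/
noncomputable def Φ (f : Γ → ℝ) : Γ → ℝ := fun y => max (f (tl y) - 1 / ((y 0 : ℝ) + 1)) 0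

theorem continuous_Φ : Continuous Φ := by
  refine continuous_pi fun y => ?_
  exact ((continuous_apply (tl y)).sub continuous_const).max continuous_const

theorem cons_tl (n : ℕ) (x : Γ) : tl (fun k => Nat.casesOn k n x) = x := rfl

theorem tl_inj {y z : Γ} (h0 : y 0 = z 0) (h : tl y = tl z) : y = z := by
  funext k
  cases k with
  | zero => exact h0
  | succ k => exact congrFun h k

theorem Φ_inj : InjOn Φ (Sig Γ) := by
  intro f hf g hg h
  funext x
  have key : ∀ f g : Γ → ℝ, f ∈ Sig Γ → g ∈ Sig Γ → Φ f = Φ g → f x ≤ g x := by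
    intro f g hf hg h
    by_contra hlt
    push Not at hlt
    have h1 : 0 < f x := lt_of_le_of_lt (hg.1 x) hlt
    obtain ⟨n, hn⟩ := exists_nat_one_div_lt h1
    let y : Γ := fun k => Nat.casesOn k n x
    have h2 : Φ f y = Φ g y := congrFun h y
    have h3 : Φ f y = f x - 1 / ((n : ℝ) + 1) := max_eq_left (by
      change (0 : ℝ) ≤ f x - 1 / ((n : ℝ) + 1)
      linarith)
    have h4 : Φ g y = max (g x - 1 / ((n : ℝ) + 1)) 0 := rfl
    rw [h3, h4] at h2
    rcases le_total (g x - 1 / ((n : ℝ) + 1)) 0 with h5 | h5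
    · rw [max_eq_right h5] at h2
      linarith
    · rw [max_eq_left h5] at h2
      linarith
  exact le_antisymm (key f g hf hg h) (key g f hg hf h.symm)

theorem scat_Φ {f : Γ → ℝ} (hf : f ∈ Sig Γ) : ScatCont (Φ f) := by
  intro A hA
  obtain ⟨a₀, ha₀⟩ := hA
  let F : Set Γ := {y | y 0 = a₀ 0 ∧ 1 / ((a₀ 0 : ℝ) + 1) < f (tl y)}
  have hF : F.Finite := by
    refine Set.Finite.of_finite_image ((finite_gt hf (a₀ 0)).subset ?_) (f := tl) ?_
    · rintro _ ⟨y, hy, rfl⟩
      exact hy.2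
    · intro y hy z hz h
      exact tl_inj (hy.1.trans hz.1.symm) h
  have hO : IsOpen {y : Γ | y 0 = a₀ 0} := by
    have h0 : Continuous fun y : Γ => y 0 := continuous_apply 0
    exact (isOpen_discrete ({a₀ 0} : Set ℕ)).preimage h0
  have hzero : ∀ y : Γ, y 0 = a₀ 0 → y ∉ F → Φ f y = 0 := by
    intro y hy hyF
    refine max_eq_right ?_
    have h1 : ¬ 1 / ((a₀ 0 : ℝ) + 1) < f (tl y) := fun h2 => hyF ⟨hy, h2⟩
    rw [hy]
    linarith
  by_cases hex : ∃ a ∈ A, a 0 = a₀ 0 ∧ a ∉ F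
  · obtain ⟨a, ha, ha0, haF⟩ := hex
    refine ⟨a, ha, cwa ({y : Γ | y 0 = a₀ 0} ∩ Fᶜ) (hO.inter hF.isClosed.isOpen_compl)
      ⟨ha0, haF⟩ fun y _ hy => ?_⟩
    rw [hzero y hy.1 hy.2, hzero a ha0 haF]
  · push Not at hex
    refine ⟨a₀, ha₀, cwa ({y : Γ | y 0 = a₀ 0} ∩ (F \ {a₀})ᶜ)
      (hO.inter (hF.subset sdiff_subset).isClosed.isOpen_compl) ⟨rfl, fun h => h.2 rfl⟩
      fun y hyA hy => ?_⟩
    have h1 : y ∈ F := hex y hyA hy.1
    have h2 : y = a₀ := by
      by_contra h3
      exact hy.2 ⟨h1, h3⟩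
    rw [h2]

/-- **There is a non-metrizable compact set `K` of scatteredly continuous functions on `ω^ω` which
is homeomorphic to a compact convex subset of `ℝ^𝔠`.** -/
theorem result : ∃ K : Set ((ℕ → ℕ) → ℝ), IsCompact K ∧ (∀ f ∈ K, ScatCont f) ∧
    (∃ (ι : Type) (C : Set (ι → ℝ)), #ι = 𝔠 ∧ IsCompact C ∧ Convex ℝ C ∧ Nonempty (K ≃ₜ C)) ∧
    ¬ MetrizableSpace K := by
  have : CompactSpace (Sig Γ) := isCompact_iff_compactSpace.1 isCompact_sig
  let Ψ : Sig Γ → (Γ → ℝ) := fun f => Φ f.1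
  have hc : Continuous Ψ := continuous_Φ.comp continuous_subtype_val
  have hi : Function.Injective Ψ := fun f g h => Subtype.ext (Φ_inj f.2 g.2 h)
  have hemb : IsEmbedding Ψ := (hc.isClosedEmbedding hi).isEmbedding
  let φ : Sig Γ ≃ₜ range Ψ := hemb.toHomeomorph
  have : Uncountable Γ := by
    rw [← Cardinal.aleph0_lt_mk_iff]
    have h1 : #Γ = 𝔠 := by simp [Γ]
    rw [h1]
    exact aleph0_lt_continuum
  refine ⟨range Ψ, isCompact_range hc, ?_, ⟨Γ, Sig Γ, by simp [Γ], isCompact_sig, convex_sig,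
    ⟨φ.symm⟩⟩, ?_⟩
  · rintro _ ⟨f, rfl⟩
    exact scat_Φ f.2
  · intro h
    exact not_metrizable (Γ := Γ) (φ.isEmbedding.metrizableSpace)

end Pool.Agent.Results.MP_69956f_gt.NonMetrizable
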